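import Pool.Agent.REV.StmtsU3
import Pool.Agent.Helper65_REV.A13All

set_option autoImplicit false

/-!
# Squad REV, row KI3: the function `kk` for `n ≥ 3` (copy of helper54's KKI)
-/

open MeasureTheory Set Filter

namespace Pool.Agent.REV.H21

open Pool.Agent.REV

theorem one_sub_pos {r : ℝ} (h0 : 0 ≤ r) (h1 : r < 1) : 0 < 1 - r ^ 2 := by nlinarith

theorem cont_w3 (p : ℝ) (hp : 0 ≤ p) : Continuous (fun r : ℝ => (1 - r ^ 2) ^ p) :=
  Continuous.rpow_const (by fun_prop) (fun _ => Or.inr hp)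

theorem contOn_w3 (p : ℝ) : ContinuousOn (fun r : ℝ => (1 - r ^ 2) ^ p) (Ico 0 1) := by
  apply ContinuousOn.rpow_const
  · fun_prop
  · intro r hr
    exact Or.inl (one_sub_pos hr.1 hr.2).ne'

theorem ki3 : Ki3Stmt := by
  intro n hn
  have hn' : (3 : ℝ) ≤ n := by exact_mod_cast hn
  have hp1 : ((n : ℝ) - 2) / 2 = ((n : ℝ) - 4) / 2 + 1 := by ring
  have hp2 : 0 ≤ ((n : ℝ) - 2) / 2 := by linarith
  have hI : IntervalIntegrable (kk n) volume 0 1 := by
    obtain ⟨i1, i2, -, -⟩ := Pool.Agent.REV.H65.int3All n hn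
    have h3 := i1.sub (i2.const_mul ((n : ℝ) - 2))
    exact h3
  have hc : ContinuousOn (kk n) (Ico 0 1) := by
    have h1 := contOn_w3 (((n : ℝ) - 4) / 2)
    have h2 := contOn_w3 (((n : ℝ) - 2) / 2)
    unfold kk
    exact h2.sub (continuousOn_const.mul ((continuousOn_id.pow 2).mul h1))
  refine ⟨hc, hI, ?_, ?_⟩
  · intro r hr
    have h0 : 0 < 1 - r ^ 2 := one_sub_pos hr.1 hr.2
    unfold kk
    rw [hp1, Real.rpow_add h0, Real.rpow_one]
    ring
  · intro x hx
    have h := intervalIntegral.integral_eq_sub_of_hasDerivAt_of_le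
      (f := fun r : ℝ => r * (1 - r ^ 2) ^ (((n : ℝ) - 2) / 2)) (f' := kk n) hx.1
      ((continuous_id.mul (cont_w3 _ hp2)).continuousOn)
      (by
        intro r hr
        have hr1 : 0 < 1 - r ^ 2 := by
          have h1 := hr.1
          have h2 := lt_of_lt_of_le hr.2 hx.2
          nlinarith
        have hd : HasDerivAt (fun r : ℝ => 1 - r ^ 2) (-(2 * r)) r := by
          have h3 := (hasDerivAt_pow 2 r).const_sub 1
          simpa using h3
        have h4 := hd.rpow_const (p := ((n : ℝ) - 2) / 2) (Or.inl hr1.ne')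
        have h5 := (hasDerivAt_id' r).mul h4
        refine h5.congr_deriv ?_
        unfold kk
        have h6 : ((n : ℝ) - 2) / 2 - 1 = ((n : ℝ) - 4) / 2 := by ring
        rw [h6]
        ring)
      (hI.mono_set (by
        rw [uIcc_of_le hx.1, uIcc_of_le zero_le_one]
        exact Icc_subset_Icc le_rfl hx.2))
    rw [h]
    simp

end Pool.Agent.REV.H21
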